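import Pool.Agent.Helper59K9.CY.Fin
import Pool.Agent.Helper59K9.CY.Neg

/-!
MP_53dd33_an, the set of exponents `t` for which `(log f) ^ t ∈ D_α` forces cyclicity:
`T_α = {t > 0 | (1 - α) / 2 ≤ t}` for every `α ∈ (0, 1]`.
-/

set_option autoImplicit false

open Metric Filter Topology

namespace Pool.Agent.Results.MP_53dd33_an.ExponentSet

/-- `f z = ∑ a k z ^ k` on the open unit disc -/
def HasCoeffs (f : ℂ → ℂ) (a : ℕ → ℂ) : Prop :=
  ∀ z : ℂ, ‖z‖ < 1 → HasSum (fun k => a k * z ^ k) (f z)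

/-- `f` is in `D_α`: analytic on the open unit disc with `∑ |a k| ^ 2 (k + 1) ^ α < ∞` -/
def MemD (α : ℝ) (f : ℂ → ℂ) : Prop :=
  ∃ a, HasCoeffs f a ∧ Summable fun k : ℕ => ‖a k‖ ^ 2 * ((k : ℝ) + 1) ^ α

/-- `f` is in `D_α` and `‖f‖_α ^ 2 < ε` -/
def NormSqLT (α : ℝ) (f : ℂ → ℂ) (ε : ℝ) : Prop :=
  ∃ a, HasCoeffs f a ∧ (Summable fun k : ℕ => ‖a k‖ ^ 2 * ((k : ℝ) + 1) ^ α) ∧
    ∑' k : ℕ, ‖a k‖ ^ 2 * ((k : ℝ) + 1) ^ α < ε

/-- `f` is cyclic in `D_α`: the multiples `p f`, `p` a polynomial, are dense in `D_α` -/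
def Cyclic (α : ℝ) (f : ℂ → ℂ) : Prop :=
  ∀ h : ℂ → ℂ, MemD α h → ∀ ε : ℝ, 0 < ε → ∃ p : Polynomial ℂ,
    NormSqLT α (fun z => p.eval z * f z - h z) ε

/-- `g` is a holomorphic branch of `L ^ t` on the open unit disc: `g` is holomorphic, vanishes where
`L` does, and near every other point `g = exp (t l)` with a holomorphic logarithm `l` of `L` -/
def IsBranch (t : ℝ) (L g : ℂ → ℂ) : Prop :=
  DifferentiableOn ℂ g (ball 0 1) ∧ ∀ w : ℂ, ‖w‖ < 1 →
    (L w = 0 → g w = 0) ∧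
    (L w ≠ 0 → ∃ l : ℂ → ℂ, ∀ᶠ z in 𝓝 w, DifferentiableAt ℂ l z ∧
      Complex.exp (l z) = L z ∧ g z = Complex.exp (t * l z))

/-- the condition `(log f) ^ t ∈ D_α` -/
def LogPowMem (α t : ℝ) (f : ℂ → ℂ) : Prop :=
  (∀ z : ℂ, ‖z‖ < 1 → f z ≠ 0) ∧ ∃ L g : ℂ → ℂ, DifferentiableOn ℂ L (ball 0 1) ∧
    (∀ z : ℂ, ‖z‖ < 1 → Complex.exp (L z) = f z) ∧ IsBranch t L g ∧ MemD α g

/-- the set `T_α` of the problem -/
def T (α : ℝ) : Set ℝ :=
  {t | 0 < t ∧ ∀ f : ℂ → ℂ, MemD α f → LogPowMem α t f → Cyclic α f}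

open Pool.Agent.Helper59K9.CY

private lemma term_nonneg (α : ℝ) (a : ℕ → ℂ) (k : ℕ) : 0 ≤ ‖a k‖ ^ 2 * ((k : ℝ) + 1) ^ α := by
  positivity

private lemma nrm_ne_top {α : ℝ} {a : ℕ → ℂ} :
    nrm α a ≠ ⊤ ↔ Summable fun k : ℕ => ‖a k‖ ^ 2 * ((k : ℝ) + 1) ^ α := by
  constructor
  · intro h
    have h1 := ENNReal.summable_toReal h
    refine h1.congr fun k => ?_
    exact ENNReal.toReal_ofReal (term_nonneg α a k)
  · intro h
    unfold nrm
    rw [← ENNReal.ofReal_tsum_of_nonneg (term_nonneg α a) h]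
    exact ENNReal.ofReal_ne_top

private lemma nrm_eq {α : ℝ} {a : ℕ → ℂ}
    (h : Summable fun k : ℕ => ‖a k‖ ^ 2 * ((k : ℝ) + 1) ^ α) :
    nrm α a = ENNReal.ofReal (∑' k : ℕ, ‖a k‖ ^ 2 * ((k : ℝ) + 1) ^ α) :=
  (ENNReal.ofReal_tsum_of_nonneg (term_nonneg α a) h).symm

private lemma memD_iff {α : ℝ} {f : ℂ → ℂ} : MemD α f ↔ InD α f := by
  constructor
  · rintro ⟨a, h1, h2⟩
    exact ⟨a, h1, nrm_ne_top.2 h2⟩
  · rintro ⟨a, h1, h2⟩
    exact ⟨a, h1, nrm_ne_top.1 h2⟩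

private lemma nrm_tail {α : ℝ} {a : ℕ → ℂ} (h : nrm α a ≠ ⊤) :
    Tendsto (fun N => nrm α (fun n => (if n < N then a n else 0) - a n)) atTop (𝓝 0) := by
  have h1 := ENNReal.tendsto_sum_nat_add _ h
  refine h1.congr fun N => ?_
  unfold nrm
  have h3 := Summable.sum_add_tsum_nat_add' (f := fun n : ℕ =>
    ENNReal.ofReal (‖(if n < N then a n else 0) - a n‖ ^ 2 * ((n : ℝ) + 1) ^ α)) (k := N)
    ENNReal.summable
  rw [← h3]
  have h2 : ∑ n ∈ Finset.range N,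
      ENNReal.ofReal (‖(if n < N then a n else 0) - a n‖ ^ 2 * ((n : ℝ) + 1) ^ α) = 0 := by
    apply Finset.sum_eq_zero
    intro n hn
    rw [if_pos (Finset.mem_range.1 hn)]
    simp
  rw [h2, zero_add]
  congr 1
  ext k
  have : ¬ (k + N < N) := by omega
  rw [if_neg this, zero_sub, norm_neg]

open Pool.Agent.Helper59K9.CY.ClmL in
private lemma cyclic_of {α : ℝ} (h0 : 0 ≤ α) (h1 : α ≤ 1) {f : ℂ → ℂ} (hf : InD α f)
    (h : Cl α f (fun _ => 1)) : Cyclic α f := by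
  intro u hu ε hε
  obtain ⟨a, ha, hsum⟩ := memD_iff.1 hu
  have hδ : (0 : ENNReal) < ENNReal.ofReal (ε / 4) := ENNReal.ofReal_pos.2 (by positivity)
  obtain ⟨N, hN⟩ := ((nrm_tail hsum).eventually (gt_mem_nhds hδ)).exists
  have hd : DifferentiableOn ℂ (fun z => (tr a N).eval z) (ball (0 : ℂ) 2) :=
    (tr a N).differentiable.differentiableOn
  obtain ⟨p, b, hb, hbn⟩ := clm α h0 h1 f (fun _ => 1) (fun z => (tr a N).eval z) 2 hf h
    (by norm_num) hd _ hδ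
  refine ⟨p, fun n => b n + ((if n < N then a n else 0) - a n), ?_, ?_⟩
  · refine co_congr (co_add hb (co_sub (co_tr a N) ha)) fun z _ => ?_
    ring
  · have h2 : nrm α (fun n => b n + ((if n < N then a n else 0) - a n)) < ENNReal.ofReal ε := by
      calc nrm α (fun n => b n + ((if n < N then a n else 0) - a n))
          ≤ 2 * nrm α b + 2 * nrm α (fun n => (if n < N then a n else 0) - a n) := nrm_add _ _ _
        _ < 2 * ENNReal.ofReal (ε / 4) + 2 * ENNReal.ofReal (ε / 4) := by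
            apply ENNReal.add_lt_add
            · exact (ENNReal.mul_lt_mul_iff_right (by norm_num) (by norm_num)).2 hbn
            · exact (ENNReal.mul_lt_mul_iff_right (by norm_num) (by norm_num)).2 hN
        _ = ENNReal.ofReal ε := by
            have e2 : (2 : ENNReal) = ENNReal.ofReal 2 := by simp
            rw [e2, ← ENNReal.ofReal_mul (by norm_num), ← ENNReal.ofReal_add (by positivity)
              (by positivity)]
            congr 1
            ring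
    have h3 := nrm_ne_top.1 (ne_top_of_lt h2)
    refine ⟨h3, ?_⟩
    rw [nrm_eq h3] at h2
    exact (ENNReal.ofReal_lt_ofReal_iff hε).1 h2

private lemma inD_one (α : ℝ) : InD α (fun _ => 1) := by
  refine ⟨fun k => if k = 0 then 1 else 0, fun z _ => ?_, ?_⟩
  · have := hasSum_ite_eq (0 : ℕ) (1 : ℂ)
    refine ClmL.hs_congr this fun n => ?_
    by_cases h : n = 0
    · simp [h]
    · simp [h]
  · rw [nrm_ne_top]
    apply summable_of_ne_finset_zero (s := {0})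
    intro k hk
    simp at hk
    simp [hk]

private lemma cl_of_cyclic {α : ℝ} {f : ℂ → ℂ} (h : Cyclic α f) : Cl α f (fun _ => 1) := by
  intro ε hε
  obtain ⟨δ, hδ0, hδ⟩ : ∃ δ : ℝ, 0 < δ ∧ ENNReal.ofReal δ ≤ ε := by
    rcases eq_or_ne ε ⊤ with h1 | h1
    · exact ⟨1, one_pos, by simp [h1]⟩
    · exact ⟨ε.toReal, ENNReal.toReal_pos hε.ne' h1, by rw [ENNReal.ofReal_toReal h1]⟩
  obtain ⟨p, a, ha, hs, hlt⟩ := h (fun _ => 1) (memD_iff.2 (inD_one α)) δ hδ0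
  refine ⟨p, a, ha, lt_of_lt_of_le ?_ hδ⟩
  rw [nrm_eq hs]
  exact (ENNReal.ofReal_lt_ofReal_iff hδ0).2 hlt

private lemma norm_branch {t : ℝ} (ht : 0 < t) {L g : ℂ → ℂ} (h : IsBranch t L g) {z : ℂ}
    (hz : ‖z‖ < 1) : ‖g z‖ = ‖L z‖ ^ t := by
  obtain ⟨h1, h2⟩ := h.2 z hz
  by_cases hL : L z = 0
  · rw [h1 hL, hL, norm_zero, Real.zero_rpow ht.ne']
  · obtain ⟨l, hl⟩ := h2 hL
    obtain ⟨_, h3, h4⟩ := hl.self_of_nhds
    rw [h4, ← h3, Complex.norm_exp, Complex.norm_exp, ← Real.exp_mul, Complex.re_ofReal_mul,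
      mul_comm]

/-- for every `α ∈ (0, 1]`: `T_α` is the set of the `t > 0` with `t ≥ (1 - α) / 2` -/
theorem result : ∀ α : ℝ, 0 < α → α ≤ 1 → T α = {t : ℝ | 0 < t ∧ (1 - α) / 2 ≤ t} := by
  intro α h0 h1
  ext t
  constructor
  · rintro ⟨ht, h⟩
    refine ⟨ht, ?_⟩
    by_contra hcon
    push Not at hcon
    obtain ⟨f, L, Lam, g, hf, hg, hL, hLam, hz, hcl⟩ := negG norm α t h0 (by linarith) ht (by linarith)
    apply hcl
    apply cl_of_cyclic
    refine h f (memD_iff.2 hf) ⟨fun z h2 => ?_, L, g, hL, fun z h2 => (hz z h2).1, ⟨?_, ?_⟩,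
      memD_iff.2 hg⟩
    · rw [← (hz z h2).1]
      exact Complex.exp_ne_zero _
    · refine ((hLam.const_mul (t : ℂ)).cexp).congr fun z h2 => ?_
      exact (hz z (by simpa using h2)).2.2
    · intro w hw
      have hb : ball (0 : ℂ) 1 ∈ 𝓝 w := isOpen_ball.mem_nhds (by simpa using hw)
      refine ⟨fun h2 => ?_, fun _ => ⟨Lam, ?_⟩⟩
      · rw [← (hz w hw).2.1] at h2
        exact absurd h2 (Complex.exp_ne_zero _)
      · filter_upwards [hb] with z h3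
        have h4 : ‖z‖ < 1 := by simpa using h3
        exact ⟨hLam.differentiableAt (isOpen_ball.mem_nhds h3), (hz z h4).2.1, (hz z h4).2.2⟩
  · rintro ⟨ht, h2⟩
    refine ⟨ht, fun f hf hlog => ?_⟩
    obtain ⟨_, L, g, hL, hexp, hbr, hg⟩ := hlog
    exact cyclic_of h0.le h1 (memD_iff.1 hf) (positive h0 h1 ht h2 (memD_iff.1 hf)
      (memD_iff.1 hg) fun z hz => ⟨hexp z hz, norm_branch ht hbr hz⟩)

end Pool.Agent.Results.MP_53dd33_an.ExponentSet
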